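import Pool.Agent.helper74.FD.SpecF

/-!
Row `fd:PRD` (MP_07c750_an): multiplication by a translate of `fti k` enlarges the spectrum by `B`.
-/

set_option autoImplicit false

open MeasureTheory Filter Set
open scoped ContDiff Topology ComplexConjugate

namespace Pool.Agent.FD

theorem PRD_bd (X : Set ℝ) (B : ℝ) (hX : Bd X) : Bd (fat B X) := by
  obtain ⟨R, hR⟩ := hX
  refine ⟨R + B, ?_⟩
  rintro y ⟨x, hx, hy⟩
  have h1 := hR x hx
  have h2 : |y| ≤ |x| + |y - x| := by
    have := abs_add_le x (y - x)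
    simpa using this
  linarith

theorem PRD_norm (u : ℝ) : ‖Complex.exp ((u : ℂ) * Complex.I)‖ = 1 := by
  rw [Complex.norm_exp_ofReal_mul_I]

/-- translation: the inner integral -/
theorem PRD_inner (h : ℝ → ℂ) (t ξ η : ℝ) :
    (∫ x : ℝ, Complex.exp (((2 * Real.pi * x * η : ℝ) : ℂ) * Complex.I) * (h (x - t) *
      Complex.exp (((-(2 * Real.pi * x * ξ) : ℝ) : ℂ) * Complex.I))) =
      Complex.exp (((-(2 * Real.pi * t * (ξ - η)) : ℝ) : ℂ) * Complex.I) * ft h (ξ - η) := by
  have e1 : (∫ x : ℝ, Complex.exp (((2 * Real.pi * x * η : ℝ) : ℂ) * Complex.I) * (h (x - t) *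
      Complex.exp (((-(2 * Real.pi * x * ξ) : ℝ) : ℂ) * Complex.I))) =
      ∫ x : ℝ, (fun y : ℝ => Complex.exp (((-(2 * Real.pi * t * (ξ - η)) : ℝ) : ℂ) * Complex.I) *
        (h y * Complex.exp (((-(2 * Real.pi * y * (ξ - η)) : ℝ) : ℂ) * Complex.I))) (x - t) := by
    congr 1
    funext x
    have e2 : Complex.exp (((2 * Real.pi * x * η : ℝ) : ℂ) * Complex.I) *
        Complex.exp (((-(2 * Real.pi * x * ξ) : ℝ) : ℂ) * Complex.I) =
        Complex.exp (((-(2 * Real.pi * t * (ξ - η)) : ℝ) : ℂ) * Complex.I) *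
        Complex.exp (((-(2 * Real.pi * (x - t) * (ξ - η)) : ℝ) : ℂ) * Complex.I) := by
      rw [← Complex.exp_add, ← Complex.exp_add]
      congr 1
      push_cast
      ring
    calc _ = h (x - t) * (Complex.exp (((2 * Real.pi * x * η : ℝ) : ℂ) * Complex.I) *
        Complex.exp (((-(2 * Real.pi * x * ξ) : ℝ) : ℂ) * Complex.I)) := by ring
      _ = _ := by rw [e2]; ring
  rw [e1, integral_sub_right_eq_self (fun y : ℝ => Complex.exp (((-(2 * Real.pi * t * (ξ - η)) : ℝ) : ℂ) * Complex.I) *
        (h y * Complex.exp (((-(2 * Real.pi * y * (ξ - η)) : ℝ) : ℂ) * Complex.I))) t]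
  rw [integral_const_mul]
  rfl

/-- the multiplication formula -/
theorem PRD_formula (f g h : ℝ → ℂ) (t ξ : ℝ) (hg : Integrable g) (hh : Integrable h)
    (hf : ∀ x, f x = fti g x) :
    ft (fun x => f x * h (x - t)) ξ = ∫ η : ℝ, g η *
      (Complex.exp (((-(2 * Real.pi * t * (ξ - η)) : ℝ) : ℂ) * Complex.I) * ft h (ξ - η)) := by
  have hht : Integrable (fun x => h (x - t)) := hh.comp_sub_right t
  have hprod : Integrable (Function.uncurry (fun (x η : ℝ) =>
      (g η * Complex.exp (((2 * Real.pi * x * η : ℝ) : ℂ) * Complex.I)) * (h (x - t) *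
        Complex.exp (((-(2 * Real.pi * x * ξ) : ℝ) : ℂ) * Complex.I))))
        ((volume : Measure ℝ).prod (volume : Measure ℝ)) := by
    have h1 : Integrable (fun z : ℝ × ℝ => (fun x => h (x - t)) z.1 * g z.2)
        ((volume : Measure ℝ).prod (volume : Measure ℝ)) := hht.mul_prod hg
    have h2 : Integrable (fun z : ℝ × ℝ => ((fun x => h (x - t)) z.1 * g z.2) *
        (Complex.exp (((2 * Real.pi * z.1 * z.2 : ℝ) : ℂ) * Complex.I) *
          Complex.exp (((-(2 * Real.pi * z.1 * ξ) : ℝ) : ℂ) * Complex.I)))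
        ((volume : Measure ℝ).prod (volume : Measure ℝ)) := by
      apply h1.mul_bdd (c := 1)
      · apply Continuous.aestronglyMeasurable
        fun_prop
      · refine Eventually.of_forall (fun z => ?_)
        rw [norm_mul, PRD_norm, PRD_norm, mul_one]
    refine h2.congr (Eventually.of_forall (fun z => ?_))
    simp only [Function.uncurry]
    ring
  calc ft (fun x => f x * h (x - t)) ξ
      = ∫ x : ℝ, ∫ η : ℝ, (g η * Complex.exp (((2 * Real.pi * x * η : ℝ) : ℂ) * Complex.I)) * (h (x - t) *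
        Complex.exp (((-(2 * Real.pi * x * ξ) : ℝ) : ℂ) * Complex.I)) := by
        unfold ft
        congr 1
        funext x
        rw [integral_mul_const]
        show f x * h (x - t) * _ = _
        rw [hf x]
        unfold fti
        ring
    _ = ∫ η : ℝ, ∫ x : ℝ, (g η * Complex.exp (((2 * Real.pi * x * η : ℝ) : ℂ) * Complex.I)) * (h (x - t) *
        Complex.exp (((-(2 * Real.pi * x * ξ) : ℝ) : ℂ) * Complex.I)) := integral_integral_swap hprod
    _ = _ := by
        congr 1
        funext η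
        rw [← PRD_inner h t ξ η, ← integral_const_mul]
        congr 1
        funext x
        ring

theorem PRD_proof (hFT0 : FT0_stmt) (hFT1 : FT1_stmt) : PRD_stmt := by
  intro X f k B t hB hf hk hk0 hki
  obtain ⟨h1, h2, h3, h4, h5⟩ := hFT0
  obtain ⟨g1, g2, g3, g4, g5, g6⟩ := hFT1 X f hf
  have hkc : HasCompactSupport k := by
    apply HasCompactSupport.intro (isCompact_Icc (a := -B) (b := B))
    intro x hx
    apply hk0
    by_contra h
    push Not at h
    exact hx (abs_le.mp h)
  have hkint : Integrable k := hk.integrable_of_hasCompactSupport hkc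
  obtain ⟨_, hc, _, hb⟩ := h1 k hkint
  have hct : Continuous (fun x => fti k (x - t)) := hc.comp (continuous_id.sub continuous_const)
  refine ⟨PRD_bd X B hf.bd, hf.cont.mul hct, ?_, ?_⟩
  · exact hf.int.mul_bdd (c := ∫ ξ, ‖k ξ‖) hct.aestronglyMeasurable (Eventually.of_forall (fun x => hb _))
  · intro ξ hξ
    rw [PRD_formula f (ft f) (fti k) t ξ g3 hki g4]
    rw [show (fun η : ℝ => ft f η *
      (Complex.exp (((-(2 * Real.pi * t * (ξ - η)) : ℝ) : ℂ) * Complex.I) * ft (fti k) (ξ - η))) = fun _ => (0 : ℂ) from ?_]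
    · simp
    · funext η
      rw [h4 k hk hkint hki]
      by_cases hη : η ∈ X
      · have : k (ξ - η) = 0 := by
          apply hk0
          by_contra h
          push Not at h
          exact hξ ⟨η, hη, h⟩
        rw [this]
        ring
      · rw [hf.sp η hη]
        ring

end Pool.Agent.FD
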